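import Mathlib
import Pool.Agent.H66.Osc

set_option autoImplicit false

open Filter Pool.Agent.H66.Osc

universe u

/-- A pair `f₁, f₂` as in the problem between which no finitely presented semigroup oscillates. -/
theorem Pool.Agent.Results.MP_dd6e79_al.NoOscillation.result :
    ∃ f₁ f₂ : ℕ → ℕ, StrictMono f₁ ∧ StrictMono f₂ ∧
      (∃ C, 1 ≤ C ∧ ∀ n, n ^ 2 ≤ C * f₁ (C * n)) ∧
      (∃ C, 1 ≤ C ∧ ∀ n, f₂ n ≤ C * 2 ^ (C * n)) ∧
      (¬ ∃ C, 1 ≤ C ∧ ∀ n, 1 ≤ n → f₁ n ≤ C * (C * n) ^ 2) ∧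
      (¬ ∃ C, 1 ≤ C ∧ ∀ n, 1 ≤ n → 2 ^ n ≤ C * f₂ (C * n)) ∧
      ∀ (S : Type u) [Semigroup S],
        (∃ (k : ℕ) (π : FreeSemigroup (Fin k) →ₙ* S)
          (R : Finset (FreeSemigroup (Fin k) × FreeSemigroup (Fin k))),
          Function.Surjective π ∧ Con.ker π = conGen fun a b => (a, b) ∈ R) →
        ∀ (m : ℕ) (x : Fin m → S), Function.Surjective (FreeSemigroup.lift x) →
          (∃ N, ∀ n, N ≤ n → f₁ n ≤ (FreeSemigroup.lift x '' {w | w.length ≤ n}).ncard) ∨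
          (∃ N, ∀ n, N ≤ n → (FreeSemigroup.lift x '' {w | w.length ≤ n}).ncard ≤ f₂ n) := by
  have : Nonempty Data := ⟨⟨0, 0, ∅, Fin.elim0⟩⟩
  obtain ⟨e, he⟩ := exists_surjective_nat Data
  obtain ⟨F, hF, h2, hs, hd⟩ := dominate (fun i => grD (e i)) fun i => gr_mono _
  refine ⟨fun n => n ^ 3, fun n => F n + n, fun a b h => Nat.pow_lt_pow_left h (by norm_num),
    fun a b h => add_lt_add_of_le_of_lt (hF h.le) h, ⟨1, le_rfl, fun n => ?_⟩,
    ⟨2, by norm_num, fun n => ?_⟩, ?_, ?_, ?_⟩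
  · rcases Nat.eq_zero_or_pos n with rfl | h
    · simp
    · simpa using Nat.pow_le_pow_right h (by norm_num)
  · have := h2 n
    have := @Nat.lt_two_pow_self n
    have : 2 ^ n ≤ 2 ^ (2 * n) := Nat.pow_le_pow_right (by norm_num) (by omega)
    simp only
    omega
  · rintro ⟨C, -, h⟩
    have h1 := h (C ^ 3 + 1) (by omega)
    have h3 : (C ^ 3 + 1) * (C ^ 3 + 1) ^ 2 ≤ C ^ 3 * (C ^ 3 + 1) ^ 2 := by
      simp only at h1
      calc _ = (C ^ 3 + 1) ^ 3 := by ring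
        _ ≤ _ := h1
        _ = _ := by ring
    have := Nat.le_of_mul_le_mul_right h3 (by positivity)
    omega
  · rintro ⟨C, hC, h⟩
    obtain ⟨N, hN⟩ := eventually_atTop.1 (hs (2 * C))
    set j := N + C * (1 + 2 * C) + 1 with hj
    have h3 := hN (C * (2 * j)) (by nlinarith)
    have h4 : F (C * (2 * j)) ≤ 2 ^ j := by
      rw [show C * (2 * j) = j * (2 * C) by ring, pow_mul 2 j] at h3
      rw [show C * (2 * j) = j * (2 * C) by ring]
      exact (Nat.pow_le_pow_iff_left (by omega)).1 h3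
    have h5 := h (2 * j) (by omega)
    have h6 : j < 2 ^ j := Nat.lt_two_pow_self
    simp only at h5
    have h7 : 2 ^ j * 2 ^ j ≤ C * (1 + 2 * C) * 2 ^ j :=
      calc 2 ^ j * 2 ^ j = 2 ^ (2 * j) := by ring
        _ ≤ _ := h5
        _ ≤ C * (2 ^ j + C * (2 * 2 ^ j)) := by gcongr
        _ = _ := by ring
    have := Nat.le_of_mul_le_mul_right h7 (by positivity)
    omega
  · rintro S _ ⟨k, π, R, hπ, hR⟩ m x -
    by_cases h : Sub (gr x)
    · obtain ⟨d, hd'⟩ := exists_data x k π R hπ hR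
      obtain ⟨i, rfl⟩ := he d
      obtain ⟨N, hN⟩ := eventually_atTop.1 (hd i (hd' ▸ h))
      refine Or.inr ⟨N, fun n hn => ?_⟩
      have := hN n hn
      rw [← hd'] at this
      exact this.trans (Nat.le_add_right _ _)
    · exact Or.inl (eventually_atTop.1 (dich _ (gr_mono x) (gr_sub x) h))
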